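import Pool.Agent.Work.MP_5db8eb_co.SP.Final

set_option autoImplicit false

/-!
# Labelings not sorted after n - 3 promotions: posets in which every N has two common lower bounds

Let `P` be a poset with `n ≥ 3` elements such that for all `a < c`, `b < c`, `b < d` with no other relations among `a, b, c, d`
at least two elements of `P` are below both `a` and `b`. Then at most `3 (n-1)! - (n-2)!` labelings `L` are not
sorted after `n - 3` extended promotions. This contains all series-parallel posets (no `N` at all).
-/

namespace Pool.Agent.Results.MP_5db8eb_co.NTwoLowerBounds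

open Pool.Agent.Work.MP_5db8eb_co.SP

theorem result (P : Type) [PartialOrder P] [Fintype P] (hn : 3 ≤ Fintype.card P)
    (hN : ∀ a b c d : P, IsN a b c d → 2 ≤ Nat.card {z : P // z < a ∧ z < b}) :
    Nat.card {L : P → ℕ // IsLabeling L ∧ ¬ IsLinExt (promo^[Fintype.card P - 3] L)} + (Fintype.card P - 2).factorial ≤
      3 * (Fintype.card P - 1).factorial :=
  main_result hn hN

end Pool.Agent.Results.MP_5db8eb_co.NTwoLowerBounds
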