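import Pool.Agent.Work.MP_5db8eb_co.SP.Final

set_option autoImplicit false

/-!
# Tangled labelings: posets in which every N has a common lower bound

Let `P` be a poset with `n ≥ 2` elements such that for all `a < c`, `b < c`, `b < d` with no other relations among `a, b, c, d`
some element of `P` is below both `a` and `b`. Then at most `(n-1)!` labelings are not sorted after `n - 2`
extended promotions (the conjecture of Defant and Kravitz for these posets).
-/

namespace Pool.Agent.Results.MP_5db8eb_co.TangledN

open Pool.Agent.Work.MP_5db8eb_co.SP

theorem result (P : Type) [PartialOrder P] [Fintype P] (hn : 2 ≤ Fintype.card P)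
    (hN : ∀ a b c d : P, IsN a b c d → 1 ≤ Nat.card {z : P // z < a ∧ z < b}) :
    Nat.card {L : P → ℕ // IsLabeling L ∧ ¬ IsLinExt (promo^[Fintype.card P - 2] L)} ≤ (Fintype.card P - 1).factorial :=
  tangled_result hn hN

end Pool.Agent.Results.MP_5db8eb_co.TangledN
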